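import Pool.Agent.Y170.NA.Pre
import Pool.Agent.L7h20.NF.Stm3

/-!
# Project NF, part XFER: transfer to a chart of the target
-/

set_option autoImplicit false

open Set Filter Topology Metric Function
open scoped Manifold ContDiff

noncomputable section

namespace Pool.Agent.L7h97.NF

open Pool.Agent.Y522 Pool.Agent.L7h20.NF

theorem det_comp' {m : ℕ} (A B : E (m + 1) →L[ℝ] E (m + 1)) :
    (A.comp B).det = A.det * B.det :=
  LinearMap.det_comp (A : E (m + 1) →ₗ[ℝ] E (m + 1)) (B : E (m + 1) →ₗ[ℝ] E (m + 1))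

theorem det_equiv_ne {m : ℕ} (A : E (m + 1) ≃L[ℝ] E (m + 1)) :
    (A : E (m + 1) →L[ℝ] E (m + 1)).det ≠ 0 := by
  intro h
  have h1 : ((A : E (m + 1) →L[ℝ] E (m + 1)).comp (A.symm : E (m + 1) →L[ℝ] E (m + 1))).det = 1 := by
    have h2 : (A : E (m + 1) →L[ℝ] E (m + 1)).comp (A.symm : E (m + 1) →L[ℝ] E (m + 1)) =
        ContinuousLinearMap.id ℝ _ := by
      ext1 v
      simp
    rw [h2]
    exact LinearMap.det_id
  rw [det_comp', h, zero_mul] at h1
  exact zero_ne_one h1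

theorem sign_const {m : ℕ} {ψ : E (m + 1) → E (m + 1)} {z : E (m + 1)} (h : LD (m + 1) ψ z) :
    (∀ᶠ w in 𝓝 z, 0 < (fderiv ℝ ψ w).det) ∨ (∀ᶠ w in 𝓝 z, (fderiv ℝ ψ w).det < 0) := by
  have hc : ContinuousAt (fun w => (fderiv ℝ ψ w).det) z := by
    have h1 : ContinuousAt (fderiv ℝ ψ) z :=
      (h.contDiffAt.fderiv_right (m := 0) (by simp)).continuousAt
    exact ContinuousLinearMap.continuous_det.continuousAt.comp h1
  obtain ⟨A, hA⟩ := h.exists_equiv
  have h0 : (fderiv ℝ ψ z).det ≠ 0 := by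
    rw [hA.fderiv]
    exact det_equiv_ne A
  rcases lt_or_gt_of_ne h0 with h1 | h1
  · exact Or.inr (hc.eventually_lt continuousAt_const h1)
  · exact Or.inl (continuousAt_const.eventually_lt hc h1)

/-- a linear map of negative determinant -/
theorem exists_neg (h1 : S_DET1) (m : ℕ) : ∃ R : E (m + 1) ≃L[ℝ] E (m + 1),
    (R : E (m + 1) →L[ℝ] E (m + 1)).det = -1 := by
  obtain ⟨R, hR1, hR2⟩ := Pool.Agent.Y47.SH.exists_refl m
  refine ⟨R, ?_⟩
  have h2 := ((h1 m).2.2.2 (R : E (m + 1) →L[ℝ] E (m + 1)) 0 hR2).1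
  rw [h2]
  change (R e0) 0 = -1
  rw [hR1]
  simp [e0]

section tools

variable {m a : ℕ} {X Y : Type} [TopologicalSpace X] [ChartedSpace (E (m + 1)) X]
  [TopologicalSpace Y] [ChartedSpace (E (m + 1)) Y]

theorem finrank_range_comp {V₁ V₂ V₃ V₄ : Type*} [AddCommGroup V₁] [Module ℝ V₁] [AddCommGroup V₂]
    [Module ℝ V₂] [AddCommGroup V₃] [Module ℝ V₃] [AddCommGroup V₄] [Module ℝ V₄]
    (A : V₃ →ₗ[ℝ] V₄) (B : V₂ →ₗ[ℝ] V₃) (C : V₁ →ₗ[ℝ] V₂) (hA : Injective A) (hC : Surjective C) :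
    Module.finrank ℝ (LinearMap.range ((A ∘ₗ B) ∘ₗ C)) = Module.finrank ℝ (LinearMap.range B) := by
  rw [LinearMap.range_comp_of_range_eq_top _ (LinearMap.range_eq_top.2 hC), LinearMap.range_comp]
  exact (LinearEquiv.finrank_eq (Submodule.equivMapOfInjective A hA (LinearMap.range B))).symm

theorem smooth_G {κ : Y → E a} {ρ : E a → Y} {U : Set (E a)} (hR : Ret (m := m) κ ρ U)
    {B : Y → E (m + 1)} {y : Y} (hB : LD (m + 1) B y) :
    ContDiffAt ℝ ∞ (fun u => B (ρ u)) (κ y) := by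
  rw [← contMDiffAt_iff_contDiffAt]
  have h1 : ContMDiffAt (𝓡 a) (𝓡 (m + 1)) ∞ ρ (κ y) := hR.smr _ (hR.mem y)
  have h2 : ContMDiffAt (𝓡 (m + 1)) (𝓡 (m + 1)) ∞ B (ρ (κ y)) := by
    rw [hR.ret]
    exact hB.contMDiffAt
  exact h2.comp (κ y) h1

theorem dV_comp (κ : Y → E a) (ρ : E a → Y) (f : X → Y) (V : X → E a) (B : Y → E (m + 1))
    (L : E (m + 1) ≃L[ℝ] E (m + 1)) (x : X) :
    dV κ ρ f V (fun y => L (B y)) x = L (dV κ ρ f V B x) := by
  unfold dV
  have h := L.comp_fderiv (f := fun u => B (ρ u)) (x := κ (f x))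
  have h2 : (fun u => L (B (ρ u))) = (L : E (m + 1) → E (m + 1)) ∘ (fun u => B (ρ u)) := rfl
  rw [h2, h]
  rfl

variable [IsManifold (𝓡 (m + 1)) ∞ X] [IsManifold (𝓡 (m + 1)) ∞ Y]

theorem LD_locF_iff (f : X → Y) (y₀ : Y) (X' : TopologicalSpace.Opens X) (hf : Continuous f)
    (x : X') (hx : f x ∈ (chartAt (E (m + 1)) y₀).source) :
    LD (m + 1) (locF f (chartAt (E (m + 1)) y₀) X') x ↔ LD (m + 1) f (x : X) := by
  have he : LD (m + 1) (chartAt (E (m + 1)) y₀ : Y → E (m + 1)) (f x) :=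
    Pool.Agent.Y66.CM.LD_chart y₀ (f x) hx
  have hv : LD (m + 1) (Subtype.val : X' → X) x := Pool.Agent.Y170.NA.LD_val X' x
  constructor
  · intro h
    obtain ⟨p, hp1, hp2, hp3, hp4⟩ := hv.exists_inverse
    obtain ⟨q, hq1, hq2, hq3, hq4⟩ := he.exists_inverse
    have h1 : LD (m + 1) (fun y => q (locF f (chartAt (E (m + 1)) y₀) X' (p y))) (x : X) := by
      refine LD.comp_fun (g := q) ?_ (LD.comp_fun (g := locF f (chartAt (E (m + 1)) y₀) X') ?_ hp1)
      · rw [hp2]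
        exact hq1
      · rw [hp2]
        exact h
    refine h1.congr ?_
    have hq3' : ∀ᶠ y in 𝓝 (x : X), q ((chartAt (E (m + 1)) y₀) (f y)) = f y :=
      hf.continuousAt.tendsto.eventually hq3
    filter_upwards [hp4, hq3'] with y hy hy'
    change f y = q ((chartAt (E (m + 1)) y₀) (f ((p y : X') : X)))
    rw [hy, hy']
  · intro h
    exact LD.comp_fun (g := fun y : X => (chartAt (E (m + 1)) y₀) (f y)) (LD.comp_fun he h) hv

theorem Rk_locF_iff (f : X → Y) (y₀ : Y) (X' : TopologicalSpace.Opens X)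
    (hf : ContMDiff (𝓡 (m + 1)) (𝓡 (m + 1)) ∞ f)
    (x : X') (hx : f x ∈ (chartAt (E (m + 1)) y₀).source) :
    Rk (locF f (chartAt (E (m + 1)) y₀) X') x ↔ RkY (m := m) f (x : X) := by
  have he : LD (m + 1) (chartAt (E (m + 1)) y₀ : Y → E (m + 1)) (f x) :=
    Pool.Agent.Y66.CM.LD_chart y₀ (f x) hx
  have hv : LD (m + 1) (Subtype.val : X' → X) x := Pool.Agent.Y170.NA.LD_val X' x
  have hfd : MDifferentiableAt (𝓡 (m + 1)) (𝓡 (m + 1)) f (x : X) :=
    (hf.contMDiffAt).mdifferentiableAt (by simp)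
  have h1 : mfderiv (𝓡 (m + 1)) (𝓡 (m + 1)) (locF f (chartAt (E (m + 1)) y₀) X') x =
      ((mfderiv (𝓡 (m + 1)) (𝓡 (m + 1)) (chartAt (E (m + 1)) y₀ : Y → E (m + 1)) (f x)).comp
        (mfderiv (𝓡 (m + 1)) (𝓡 (m + 1)) f (x : X))).comp
        (mfderiv (𝓡 (m + 1)) (𝓡 (m + 1)) (Subtype.val : X' → X) x) := by
    have e1 := mfderiv_comp (I := 𝓡 (m + 1)) (I' := 𝓡 (m + 1)) (I'' := 𝓡 (m + 1)) (x : X)
      he.mdifferentiableAt hfd
    have e2 := mfderiv_comp (I := 𝓡 (m + 1)) (I' := 𝓡 (m + 1)) (I'' := 𝓡 (m + 1)) x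
      (g := (chartAt (E (m + 1)) y₀ : Y → E (m + 1)) ∘ f) (f := (Subtype.val : X' → X))
      (he.mdifferentiableAt.comp (x : X) hfd) hv.mdifferentiableAt
    rw [e1] at e2
    exact e2
  unfold Rk RkY
  rw [h1]
  have hinj : Injective (mfderiv (𝓡 (m + 1)) (𝓡 (m + 1))
      (chartAt (E (m + 1)) y₀ : Y → E (m + 1)) (f x)) := he.mfderiv_injective
  have hsur : Surjective (mfderiv (𝓡 (m + 1)) (𝓡 (m + 1)) (Subtype.val : X' → X) x) := by
    have h := hv.mfderivToContinuousLinearEquiv_coe (by simp)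
    rw [← h]
    exact (hv.mfderivToContinuousLinearEquiv (by simp)).surjective
  have h2 := finrank_range_comp
    (mfderiv (𝓡 (m + 1)) (𝓡 (m + 1)) (chartAt (E (m + 1)) y₀ : Y → E (m + 1)) (f x)).toLinearMap
    (mfderiv (𝓡 (m + 1)) (𝓡 (m + 1)) f (x : X)).toLinearMap
    (mfderiv (𝓡 (m + 1)) (𝓡 (m + 1)) (Subtype.val : X' → X) x).toLinearMap hinj hsur
  constructor
  · intro h
    exact h.trans_eq h2
  · intro h
    exact h.trans_eq h2.symm

end tools

theorem s_XFER (h1 : S_DET1) (h5 : S_CONE) (h6 : S_CONEY) : S_XFER := by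
  intro m a X Y _ _ _ _ _ _ κ ρ U f y₀ X' hR hf hX
  obtain ⟨e, hed⟩ : ∃ e : Y → E (m + 1), e = (chartAt (E (m + 1)) y₀ : Y → E (m + 1)) := ⟨_, rfl⟩
  have hfc : Continuous f := hf.smooth.continuous
  have hLD : ∀ x : X', LD (m + 1) (locF f (chartAt (E (m + 1)) y₀) X') x ↔ LD (m + 1) f (x : X) :=
    fun x => LD_locF_iff f y₀ X' hfc x (hX x)
  have he : ∀ x : X', LD (m + 1) (chartAt (E (m + 1)) y₀ : Y → E (m + 1)) (f x) :=
    fun x => Pool.Agent.Y66.CM.LD_chart y₀ (f x) (hX x)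
  have hv : ∀ x : X', LD (m + 1) (Subtype.val : X' → X) x :=
    fun x => Pool.Agent.Y170.NA.LD_val X' x
  have hS : Setting (locF f (chartAt (E (m + 1)) y₀) X') := by
    refine ⟨?_, ?_, ?_⟩
    · intro x
      have e1 : ContMDiffAt (𝓡 (m + 1)) (𝓡 (m + 1)) ∞
          ((chartAt (E (m + 1)) y₀ : Y → E (m + 1)) ∘ f) (x : X) :=
        (he x).contMDiffAt.comp (x : X) (hf.smooth (x : X))
      exact e1.comp x (hv x).contMDiffAt
    · intro x
      rw [_root_.mem_closure_iff]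
      intro o ho hxo
      have h2 : IsOpen (Subtype.val '' o : Set X) := X'.2.isOpenEmbedding_subtypeVal.isOpenMap o ho
      obtain ⟨y, hy1, hy2⟩ := hf.dense.inter_open_nonempty _ h2 ⟨x, ⟨x, hxo, rfl⟩⟩
      obtain ⟨y', hy', rfl⟩ := hy1
      exact ⟨y', hy', (hLD y').2 hy2⟩
    · intro x
      obtain ⟨A, B, z, hAz, hc⟩ := hf.sign (x : X)
      obtain ⟨p, hp1, hp2, hp3, hp4⟩ := hc.lb.exists_inverse
      classical
      obtain ⟨A', hA'd⟩ : ∃ A' : E (m + 1) → X', A' = fun w => if h : A w ∈ X' then ⟨A w, h⟩ else x :=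
        ⟨_, rfl⟩
      have hA'v : ∀ w, A w ∈ X' → ((A' w : X') : X) = A w := by
        intro w hw
        rw [hA'd]
        simp [hw]
      have hzX : A z ∈ X' := by
        rw [hAz]
        exact x.2
      have hA'z : A' z = x := by
        apply Subtype.ext
        rw [hA'v z hzX, hAz]
      have hA' : LD (m + 1) A' z := Pool.Agent.Y170.NA.LD_lift X' hc.ld A' hA'v hzX
      have hψ : LD (m + 1) (fun u => (chartAt (E (m + 1)) y₀ : Y → E (m + 1)) (p u)) (B (f (A z))) := by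
        refine LD.comp_fun ?_ hp1
        rw [hp2, hAz]
        exact he x
      have hcfA : ContinuousAt (fun w => f (A w)) z :=
        hfc.continuousAt.comp hc.ld.continuousAt
      have hcB : ContinuousAt (fun w => B (f (A w))) z :=
        ContinuousAt.comp (g := B) (f := fun w => f (A w)) hc.lb.continuousAt hcfA
      have hAX : ∀ᶠ w in 𝓝 z, A w ∈ X' := hc.ld.continuousAt.eventually (X'.2.mem_nhds hzX)
      -- the equation near z
      have hE : ∀ᶠ w in 𝓝 z, locF f (chartAt (E (m + 1)) y₀) X' (A' w) =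
          (fun u => (chartAt (E (m + 1)) y₀ : Y → E (m + 1)) (p u)) (B (f (A w))) := by
        filter_upwards [hAX, hcfA.eventually hp3] with w hw hw'
        change (chartAt (E (m + 1)) y₀ : Y → E (m + 1)) (f ((A' w : X') : X)) = _
        rw [hA'v w hw]
        change _ = (chartAt (E (m + 1)) y₀ : Y → E (m + 1)) (p (B (f (A w))))
        rw [hw']
      have hD1 : ∀ᶠ w in 𝓝 z, DifferentiableAt ℝ (fun w => B (f (A w))) w := by
        filter_upwards [hc.ld.eventually, hcfA.eventually hc.lb.eventually] with w hw hw'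
        have e1 : ContMDiffAt (𝓡 (m + 1)) (𝓡 (m + 1)) ∞ (fun w => B (f (A w))) w :=
          hw'.contMDiffAt.comp w ((hf.smooth (A w)).comp w hw.contMDiffAt)
        exact (contMDiffAt_iff_contDiffAt.1 e1).differentiableAt (by simp)
      have hD2 : ∀ᶠ w in 𝓝 z, LD (m + 1)
          (fun u => (chartAt (E (m + 1)) y₀ : Y → E (m + 1)) (p u)) (B (f (A w))) :=
        hcB.eventually hψ.eventually
      have hfd : ∀ (L : E (m + 1) ≃L[ℝ] E (m + 1)), ∀ᶠ w in 𝓝 z,
          jac (locF f (chartAt (E (m + 1)) y₀) X') A' L w =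
            (L : E (m + 1) →L[ℝ] E (m + 1)).det *
            ((fderiv ℝ (fun u => (chartAt (E (m + 1)) y₀ : Y → E (m + 1)) (p u)) (B (f (A w)))).det *
            (dY f A B w).det) := by
        intro L
        filter_upwards [hE.eventually_nhds, hD1, hD2] with w hw1 hw2 hw3
        unfold jac dF
        have e1 : (fun w => L (locF f (chartAt (E (m + 1)) y₀) X' (A' w))) =ᶠ[𝓝 w]
            (L : E (m + 1) → E (m + 1)) ∘
            (fun w => (fun u => (chartAt (E (m + 1)) y₀ : Y → E (m + 1)) (p u)) (B (f (A w)))) := by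
          filter_upwards [hw1] with w' hw'
          simp only [comp_apply]
          rw [hw']
        rw [e1.fderiv_eq, L.comp_fderiv, det_comp']
        congr 1
        have e2 := fderiv_comp w (g := fun u => (chartAt (E (m + 1)) y₀ : Y → E (m + 1)) (p u))
          (f := fun w => B (f (A w))) (hw3.contDiffAt.differentiableAt (by simp)) hw2
        have e3 : (fun w => (fun u => (chartAt (E (m + 1)) y₀ : Y → E (m + 1)) (p u)) (B (f (A w)))) =
            (fun u => (chartAt (E (m + 1)) y₀ : Y → E (m + 1)) (p u)) ∘ (fun w => B (f (A w))) := rfl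
        rw [e3, e2, det_comp']
        rfl
      rcases sign_const hψ with hs | hs
      · refine ⟨A', ContinuousLinearEquiv.refl ℝ _, z, hA'z, hA', ?_⟩
        filter_upwards [hfd (ContinuousLinearEquiv.refl ℝ _), hcB.eventually hs, hc.nn] with w w1 w2 w3
        rw [w1]
        have h3 : ((ContinuousLinearEquiv.refl ℝ (E (m + 1)) : E (m + 1) ≃L[ℝ] E (m + 1)) :
            E (m + 1) →L[ℝ] E (m + 1)).det = 1 := LinearMap.det_id
        rw [h3, one_mul]
        exact mul_nonneg w2.le w3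
      · obtain ⟨R, hR1⟩ := exists_neg h1 m
        refine ⟨A', R, z, hA'z, hA', ?_⟩
        filter_upwards [hfd R, hcB.eventually hs, hc.nn] with w w1 w2 w3
        rw [w1, hR1]
        nlinarith [mul_nonneg (neg_nonneg.2 w2.le) w3]
  refine ⟨hS, hLD, fun x => Rk_locF_iff f y₀ X' hf.smooth x (hX x), ?_⟩
  intro V hV
  have hSm : Sm (fun x : X' => dV κ ρ f V (chartAt (E (m + 1)) y₀) (x : X)) := by
    intro x
    have hG := smooth_G hR (he x)
    have hG' : ContDiffAt ℝ ∞ (fderiv ℝ (fun u => (chartAt (E (m + 1)) y₀ : Y → E (m + 1)) (ρ u)))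
        (κ (f x)) := hG.fderiv_right (m := ∞) (by simp)
    have e1 : ContMDiffAt (𝓡 (m + 1)) (𝓡 a) ∞ (fun x : X' => κ (f x)) x :=
      (((hR.smk (f x)).comp (x : X) (hf.smooth (x : X)))).comp x (hv x).contMDiffAt
    have e2 : ContMDiffAt (𝓡 (m + 1)) 𝓘(ℝ, E a →L[ℝ] E (m + 1)) ∞
        (fun x : X' => fderiv ℝ (fun u => (chartAt (E (m + 1)) y₀ : Y → E (m + 1)) (ρ u)) (κ (f x))) x :=
      (hG'.contMDiffAt).comp x e1
    have e3 : ContMDiffAt (𝓡 (m + 1)) (𝓡 a) ∞ (fun x : X' => V x) x :=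
      (hV (x : X)).comp x (hv x).contMDiffAt
    exact e2.clm_apply e3
  refine ⟨hSm, fun x hx => ?_⟩
  obtain ⟨A', L, z, hAz, hc⟩ := hS.sign x
  have hcY : CoY f (fun w => ((A' w : X') : X)) (fun y => L ((chartAt (E (m + 1)) y₀) y)) z := by
    refine ⟨LD.comp_fun (f := A') (g := (Subtype.val : X' → X)) (hv (A' z)) hc.ld, ?_, hc.nn⟩
    refine LD.comp_fun (g := fun v : E (m + 1) => L v) (f := (chartAt (E (m + 1)) y₀ : Y → E (m + 1)))
      (LD_linear L _) ?_
    exact he (A' z)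
  have ht : tauY κ ρ f V (fun w => ((A' w : X') : X)) (fun y => L ((chartAt (E (m + 1)) y₀) y)) z =
      tau (locF f (chartAt (E (m + 1)) y₀) X')
        (fun x : X' => dV κ ρ f V (chartAt (E (m + 1)) y₀) (x : X)) A' L z := by
    unfold tauY tau
    have e1 : (fun w => dV κ ρ f V (fun y => L ((chartAt (E (m + 1)) y₀) y)) ((A' w : X') : X)) =
        fun w => L (dV κ ρ f V (chartAt (E (m + 1)) y₀) ((A' w : X') : X)) := by
      funext w
      exact dV_comp κ ρ f V _ L _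
    rw [e1]
    rfl
  have hY := (h6 m a X Y κ ρ U f hR hf).2.2.2.2.2.2 (fun w => ((A' w : X') : X))
    (fun y => L ((chartAt (E (m + 1)) y₀) y)) z V hV (by rw [hAz]; exact hx) hcY
  have hF := (h5 m X' (locF f (chartAt (E (m + 1)) y₀) X') hS).2.2.2.2.2.2.2.1 A' L z
    (fun x : X' => dV κ ρ f V (chartAt (E (m + 1)) y₀) (x : X)) hSm hc
  rw [ht] at hY
  simp only [hAz] at hY hF
  exact ⟨hY.1.trans hF.1.symm, hY.2.trans hF.2.symm⟩

end Pool.Agent.L7h97.NF
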