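import Pool.Agent.L7h97.NF.Xfer

/-!
# Project NF, part PROPY: propagation of the bad set for maps between manifolds
-/

set_option autoImplicit false

open Set Filter Topology Metric Function
open scoped Manifold ContDiff

noncomputable section

namespace Pool.Agent.L7h97.NF

open Pool.Agent.Y522 Pool.Agent.L7h20.NF

section tools

variable {m a : ℕ} {X Y : Type} [TopologicalSpace X] [ChartedSpace (E (m + 1)) X]
  [TopologicalSpace Y] [ChartedSpace (E (m + 1)) Y]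

theorem tauY_congr {κ : Y → E a} {ρ : E a → Y} {f : X → Y} {V V' : X → E a}
    {A : E (m + 1) → X} {B : Y → E (m + 1)} {z : E (m + 1)} (hA : ContinuousAt A z)
    (h : V =ᶠ[𝓝 (A z)] V') : tauY κ ρ f V A B z = tauY κ ρ f V' A B z := by
  unfold tauY
  have e1 : (fun w => dV κ ρ f V B (A w)) =ᶠ[𝓝 z] (fun w => dV κ ρ f V' B (A w)) := by
    filter_upwards [hA.eventually h] with w hw
    unfold dV
    rw [hw]
  rw [e1.fderiv_eq]

theorem NNY_congr {κ : Y → E a} {ρ : E a → Y} {f : X → Y} {V V' : X → E a} {x : X}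
    (h : V =ᶠ[𝓝 x] V') (hV : NNY (m := m) κ ρ f V x) : NNY (m := m) κ ρ f V' x := by
  obtain ⟨A, B, z, hz, hc, ht⟩ := hV
  refine ⟨A, B, z, hz, hc, ?_⟩
  have h' : V =ᶠ[𝓝 (A z)] V' := by
    rw [hz]
    exact h
  have e := tauY_congr (κ := κ) (ρ := ρ) (f := f) (B := B) hc.ld.continuousAt h'
  rw [← e]
  exact ht

variable [IsManifold (𝓡 (m + 1)) ∞ X] [IsManifold (𝓡 (m + 1)) ∞ Y]

/-- the direction `v` in the chart, as a map to `E a` -/
def Wd (κ : Y → E a) (f : X → Y) (y₀ : Y) (v : E (m + 1)) (x : X) : E a :=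
  fderiv ℝ (fun u => κ ((chartAt (E (m + 1)) y₀).symm u)) ((chartAt (E (m + 1)) y₀) (f x)) v

theorem smooth_Q {κ : Y → E a} {ρ : E a → Y} {U : Set (E a)} (hR : Ret (m := m) κ ρ U) (y₀ : Y)
    {u : E (m + 1)} (hu : u ∈ (chartAt (E (m + 1)) y₀).target) :
    ContDiffAt ℝ ∞ (fun u => κ ((chartAt (E (m + 1)) y₀).symm u)) u := by
  rw [← contMDiffAt_iff_contDiffAt]
  have h1 : ContMDiffAt (𝓡 (m + 1)) (𝓡 (m + 1)) ∞ ((chartAt (E (m + 1)) y₀).symm) u :=
    contMDiffOn_chart_symm.contMDiffAt ((chartAt (E (m + 1)) y₀).open_target.mem_nhds hu)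
  exact (hR.smk _).comp u h1

theorem dV_Wd {κ : Y → E a} {ρ : E a → Y} {U : Set (E a)} (hR : Ret (m := m) κ ρ U)
    (f : X → Y) (y₀ : Y) (v : E (m + 1)) (x : X) (hx : f x ∈ (chartAt (E (m + 1)) y₀).source) :
    fderiv ℝ (fun u => (chartAt (E (m + 1)) y₀) (ρ u)) (κ (f x)) (Wd κ f y₀ v x) = v := by
  have ht : (chartAt (E (m + 1)) y₀) (f x) ∈ (chartAt (E (m + 1)) y₀).target :=
    (chartAt (E (m + 1)) y₀).map_source hx
  have h1 := smooth_Q hR y₀ ht
  have h2 := smooth_G hR (Pool.Agent.Y66.CM.LD_chart y₀ (f x) hx)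
  have h3 : κ ((chartAt (E (m + 1)) y₀).symm ((chartAt (E (m + 1)) y₀) (f x))) = κ (f x) := by
    rw [(chartAt (E (m + 1)) y₀).left_inv hx]
  have h4 := fderiv_comp ((chartAt (E (m + 1)) y₀) (f x))
    (g := fun u => (chartAt (E (m + 1)) y₀ : Y → E (m + 1)) (ρ u))
    (f := fun u => κ ((chartAt (E (m + 1)) y₀).symm u))
    (by rw [h3]; exact h2.differentiableAt (by simp)) (h1.differentiableAt (by simp))
  rw [h3] at h4
  have h5 : ((fun u => (chartAt (E (m + 1)) y₀ : Y → E (m + 1)) (ρ u)) ∘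
      (fun u => κ ((chartAt (E (m + 1)) y₀).symm u))) =ᶠ[𝓝 ((chartAt (E (m + 1)) y₀) (f x))]
      (fun u => u) := by
    filter_upwards [(chartAt (E (m + 1)) y₀).open_target.mem_nhds ht] with u hu
    simp only [comp_apply]
    rw [hR.ret, (chartAt (E (m + 1)) y₀).right_inv hu]
  rw [h5.fderiv_eq] at h4
  have h6 := congrArg (fun T => T v) h4
  simp only [fderiv_fun_id] at h6
  unfold Wd
  exact h6.symm

end tools

section ext

variable {m a : ℕ} {X : Type} [TopologicalSpace X] [T2Space X] [ChartedSpace (E (m + 1)) X]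

open Classical in
/-- extension by zero from an open set -/
def ext0 (X' : TopologicalSpace.Opens X) (g : X' → E a) (x : X) : E a :=
  if h : x ∈ X' then g ⟨x, h⟩ else 0

omit [TopologicalSpace X] [T2Space X] [ChartedSpace (E (m + 1)) X] in
theorem ext0_coe [TopologicalSpace X] (X' : TopologicalSpace.Opens X) (g : X' → E a) (x : X') : ext0 X' g (x : X) = g x := by
  unfold ext0
  rw [dif_pos x.2]

theorem ext0_out (X' : TopologicalSpace.Opens X) (g : X' → E a) (x : X)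
    (hx : x ∉ Subtype.val '' tsupport g) : ext0 X' g x = 0 := by
  unfold ext0
  split_ifs with h
  · by_contra h1
    exact hx ⟨⟨x, h⟩, subset_tsupport g h1, rfl⟩
  · rfl

theorem ext0_compact (X' : TopologicalSpace.Opens X) (g : X' → E a) (hg : HasCompactSupport g) :
    HasCompactSupport (ext0 X' g) := by
  have h1 : IsCompact (Subtype.val '' tsupport g : Set X) := hg.isCompact.image continuous_subtype_val
  exact HasCompactSupport.intro h1 fun x hx => ext0_out X' g x hx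

theorem ext0_event (X' : TopologicalSpace.Opens X) (g : X' → E a) (hg : HasCompactSupport g) (x : X)
    (hx : x ∉ Subtype.val '' tsupport g) : ∀ᶠ y in 𝓝 x, ext0 X' g y = 0 := by
  have h1 : IsClosed (Subtype.val '' tsupport g : Set X) :=
    (hg.isCompact.image continuous_subtype_val).isClosed
  filter_upwards [h1.isOpen_compl.mem_nhds hx] with y hy
  exact ext0_out X' g y hy

theorem ext0_smooth (X' : TopologicalSpace.Opens X) (g : X' → E a) (hg : HasCompactSupport g)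
    (hs : ContMDiff (𝓡 (m + 1)) (𝓡 a) ∞ g) : ContMDiff (𝓡 (m + 1)) (𝓡 a) ∞ (ext0 X' g) := by
  intro x
  by_cases hx : x ∈ Subtype.val '' tsupport g
  · obtain ⟨x', -, rfl⟩ := hx
    rw [← contMDiffAt_subtype_iff]
    exact (hs x').congr_of_eventuallyEq (Eventually.of_forall fun y => ext0_coe X' g y)
  · have h1 : ext0 X' g =ᶠ[𝓝 x] fun _ => (0 : E a) := ext0_event X' g hg x hx
    exact contMDiffAt_const.congr_of_eventuallyEq h1

end ext

theorem prop_key (hP : S_PROP) (h1 : S_DET1) (h5 : S_CONE) (h6 : S_CONEY) (m a : ℕ) (X Y : Type)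
    [TopologicalSpace X] [T2Space X] [ChartedSpace (E (m + 1)) X]
    [IsManifold (𝓡 (m + 1)) ∞ X] [TopologicalSpace Y] [ChartedSpace (E (m + 1)) Y]
    [IsManifold (𝓡 (m + 1)) ∞ Y] (κ : Y → E a) (ρ : E a → Y) (U : Set (E a)) (f : X → Y)
    (y₀ : Y) (X' : TopologicalSpace.Opens X)
    (hR : Ret (m := m) κ ρ U) (hf : SettingY (m := m) f)
    (hX : ∀ x : X', f x ∈ (chartAt (E (m + 1)) y₀).source)
    (P : E (m + 1) →L[ℝ] E m) (A : E (m + 1) → X') (L : E (m + 1) ≃L[ℝ] E (m + 1)) (b : E m)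
    (hB : Bx (locF f (chartAt (E (m + 1)) y₀) X') P A L b)
    (h0 : ¬ LD (m + 1) f (A 0 : X)) (t : ℝ) (ht0 : t ≠ 0) (ht : |t| < 1) (V₁ : X → E a)
    (hV1 : SmA (m := m) V₁) (hV2 : HasCompactSupport V₁)
    (hV3 : ∀ y, ¬ LD (m + 1) f y → NNY (m := m) κ ρ f V₁ y) (N : Set X) (hN : IsOpen N)
    (hN1 : ∀ x ∈ N, ¬ LD (m + 1) f x → PosY (m := m) κ ρ f V₁ x) (hN2 : (A (t • e0) : X) ∈ N) :
    (A 0 : X) ∈ GdY (m := m) κ ρ f := by
  obtain ⟨hS, hLD, -, hT⟩ := s_XFER h1 h5 h6 m a X Y κ ρ U f y₀ X' hR hf hX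
  obtain ⟨hSm1, hT1⟩ := hT V₁ hV1
  obtain ⟨C, σ, hC, hσ1, hσ2, hσ3, hσ4⟩ := hP m X' (locF f (chartAt (E (m + 1)) y₀) X') P A L b
    {x | ¬ LD (m + 1) (locF f (chartAt (E (m + 1)) y₀) X') x} (Subtype.val ⁻¹' N)
    (fun x : X' => dV κ ρ f V₁ (chartAt (E (m + 1)) y₀) (x : X)) t hS hB (by
      rw [← isOpen_compl_iff, isOpen_iff_mem_nhds]
      intro x hx
      have hx' : LD (m + 1) (locF f (chartAt (E (m + 1)) y₀) X') x := by
        by_contra h
        exact hx h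
      filter_upwards [hx'.eventually] with y hy h
      exact h hy) (fun h => h0 ((hLD _).1 h)) hSm1 (fun x hx =>
        ((hT1 x (fun h => hx ((hLD x).2 h))).1.1 (hV3 _ (fun h => hx ((hLD x).2 h)))))
      (hN.preimage continuous_subtype_val) (fun x hx hxN =>
        ((hT1 x (fun h => hx ((hLD x).2 h))).2.1 (hN1 _ hxN (fun h => hx ((hLD x).2 h)))))
      ht0 ht hN2
  -- the section on `X'`
  obtain ⟨g, hgd⟩ : ∃ g : X' → E a, g = fun x => σ x • Wd κ f y₀ (L.symm e0) (x : X) := ⟨_, rfl⟩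
  have hg1 : ContMDiff (𝓡 (m + 1)) (𝓡 a) ∞ g := by
    rw [hgd]
    intro x
    have hv : LD (m + 1) (Subtype.val : X' → X) x := Pool.Agent.Y170.NA.LD_val X' x
    have ht : (chartAt (E (m + 1)) y₀) (f x) ∈ (chartAt (E (m + 1)) y₀).target :=
      (chartAt (E (m + 1)) y₀).map_source (hX x)
    have e1 : ContDiffAt ℝ ∞ (fderiv ℝ (fun u => κ ((chartAt (E (m + 1)) y₀).symm u)))
        ((chartAt (E (m + 1)) y₀) (f x)) := (smooth_Q hR y₀ ht).fderiv_right (m := ∞) (by simp)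
    have e2 : ContMDiffAt (𝓡 (m + 1)) (𝓡 (m + 1)) ∞
        (fun x : X' => (chartAt (E (m + 1)) y₀ : Y → E (m + 1)) (f x)) x :=
      (((Pool.Agent.Y66.CM.LD_chart y₀ (f x) (hX x)).contMDiffAt).comp (x : X)
        (hf.smooth (x : X))).comp x hv.contMDiffAt
    have e3 : ContMDiffAt (𝓡 (m + 1)) 𝓘(ℝ, E (m + 1) →L[ℝ] E a) ∞
        (fun x : X' => fderiv ℝ (fun u => κ ((chartAt (E (m + 1)) y₀).symm u))
          ((chartAt (E (m + 1)) y₀) (f x))) x := (e1.contMDiffAt).comp x e2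
    have e4 : ContMDiffAt (𝓡 (m + 1)) (𝓡 a) ∞ (fun x : X' => Wd κ f y₀ (L.symm e0) (x : X)) x :=
      e3.clm_apply contMDiffAt_const
    exact (hσ1 x).smul e4
  have hg2 : HasCompactSupport g := by
    rw [hgd]
    exact hσ2.smul_right
  obtain ⟨V, hVd⟩ : ∃ V : X → E a, V = fun x => C • V₁ x + ext0 X' g x := ⟨_, rfl⟩
  have hV : SmA (m := m) V := by
    rw [hVd]
    have e1 : ContMDiff (𝓡 (m + 1)) (𝓡 a) ∞ (fun x => C • V₁ x) :=
      (contMDiff_const (I := 𝓡 (m + 1)) (I' := 𝓘(ℝ, ℝ)) (M := X) (c := C)).smul hV1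
    exact e1.add (ext0_smooth X' g hg2 hg1)
  have hVc : HasCompactSupport V := by
    rw [hVd]
    exact (hV2.smul_left (f := fun _ => C)).add (ext0_compact X' g hg2)
  obtain ⟨hSm, hT2⟩ := hT V hV
  have hdV : (fun x : X' => dV κ ρ f V (chartAt (E (m + 1)) y₀) (x : X)) =
      fun y : X' => C • dV κ ρ f V₁ (chartAt (E (m + 1)) y₀) (y : X) + σ y • L.symm e0 := by
    funext x
    unfold dV
    rw [hVd]
    simp only [map_add, map_smul]
    rw [ext0_coe, hgd]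
    simp only [map_smul]
    rw [dV_Wd hR f y₀ (L.symm e0) (x : X) (hX x)]
  refine ⟨V, hV, hVc, ?_, ?_⟩
  · intro y hy
    by_cases hyX : y ∈ X'
    · have h2 := (hT2 ⟨y, hyX⟩ hy).1
      refine h2.2 ?_
      rw [hdV]
      exact hσ3 _ (fun h => hy ((hLD ⟨y, hyX⟩).1 h))
    · have h2 : NNY (m := m) κ ρ f (fun y => C • V₁ y) y :=
        (h6 m a X Y κ ρ U f hR hf).2.2.1 V₁ y C hV1 hC hy (hV3 y hy)
      refine NNY_congr ?_ h2
      have h3 : y ∉ Subtype.val '' tsupport g := by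
        rintro ⟨y', -, rfl⟩
        exact hyX y'.2
      filter_upwards [ext0_event X' g hg2 y h3] with z hz
      rw [hVd]
      simp only
      rw [hz, add_zero]
  · refine (hT2 (A 0) h0).2.2 ?_
    rw [hdV]
    exact hσ4

theorem s_PROPY (hP : S_PROP) (h1 : S_DET1) (h5 : S_CONE) (h6 : S_CONEY) : S_PROPY := by
  intro m a X Y _ _ _ _ _ _ _ κ ρ U f y₀ X' hR hf _ hX P A L b hB h0 h0' t ht
  have hcy := h6 m a X Y κ ρ U f hR hf
  by_cases ht0 : t = 0
  · rw [ht0, zero_smul]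
    exact ⟨h0, h0'⟩
  have hA : ¬ LD (m + 1) f (A (t • e0) : X) := by
    intro h
    apply h0'
    refine prop_key hP h1 h5 h6 m a X Y κ ρ U f y₀ X' hR hf hX P A L b hB h0 t ht0 ht
      (fun _ => (0 : E a)) contMDiff_const ?_ (fun y _ => hcy.2.2.2.2.2.1 y)
      {x | LD (m + 1) f x} ?_ (fun x hx hx' => absurd hx hx') h
    · exact HasCompactSupport.intro isCompact_empty fun _ _ => rfl
    · rw [isOpen_iff_mem_nhds]
      intro x hx
      exact LD.eventually hx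
  refine ⟨hA, ?_⟩
  rintro ⟨V₁, hV1, hV2, hV3, hV4⟩
  apply h0'
  have h3 := hcy.2.2.2.1 V₁ _ hV1 hA hV4
  obtain ⟨N, hN, hNo, hNA⟩ := mem_nhds_iff.1 h3
  exact prop_key hP h1 h5 h6 m a X Y κ ρ U f y₀ X' hR hf hX P A L b hB h0 t ht0 ht
    V₁ hV1 hV2 hV3 N hNo (fun x hx hx' => hN hx hx') hNA

end Pool.Agent.L7h97.NF
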